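import Mathlib

namespace Pool.Agent.Results.MP_0af3ab_al.Ess

/-- the nucleus (associative center) -/
def Nuc (R : Type) [NonAssocRing R] : Set R :=
  {x | ∀ a b : R, (x * a) * b = x * (a * b) ∧ (a * x) * b = a * (x * b) ∧ (a * b) * x = a * (b * x)}

def T := ℤ × ℤ × ℤ × ℤ

instance : AddCommGroup T := inferInstanceAs (AddCommGroup (ℤ × ℤ × ℤ × ℤ))

def mul (x y : ℤ × ℤ × ℤ × ℤ) : ℤ × ℤ × ℤ × ℤ :=
  (x.1 * y.1, x.1 * y.2.1 + x.2.1 * y.1 + x.2.2.2 * y.2.2.2,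
    x.1 * y.2.2.1 + x.2.2.1 * y.1 + x.2.1 * y.2.2.2, x.1 * y.2.2.2 + x.2.2.2 * y.1)

instance : NonAssocRing T :=
  { (inferInstance : AddCommGroup T) with
    mul := mul
    one := ((1, 0, 0, 0) : ℤ × ℤ × ℤ × ℤ)
    left_distrib := fun (x y z : ℤ × ℤ × ℤ × ℤ) => show mul x (y + z) = mul x y + mul x z by
      simp only [mul, Prod.fst_add, Prod.snd_add, Prod.mk_add_mk, Prod.mk.injEq]
      refine ⟨?_, ?_, ?_, ?_⟩ <;> ring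
    right_distrib := fun (x y z : ℤ × ℤ × ℤ × ℤ) => show mul (x + y) z = mul x z + mul y z by
      simp only [mul, Prod.fst_add, Prod.snd_add, Prod.mk_add_mk, Prod.mk.injEq]
      refine ⟨?_, ?_, ?_, ?_⟩ <;> ring
    zero_mul := fun (x : ℤ × ℤ × ℤ × ℤ) => show mul 0 x = 0 by simp [mul]
    mul_zero := fun (x : ℤ × ℤ × ℤ × ℤ) => show mul x 0 = 0 by simp [mul]
    one_mul := fun (x : ℤ × ℤ × ℤ × ℤ) => show mul (1, 0, 0, 0) x = x by simp [mul]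
    mul_one := fun (x : ℤ × ℤ × ℤ × ℤ) => show mul x (1, 0, 0, 0) = x by simp [mul] }

lemma mem (x : ℤ × ℤ × ℤ × ℤ) : (show T from x) ∈ Nuc T ↔ x.2.2.2 = 0 := by
  constructor
  · intro h
    have h1 : mul (mul x (0, 0, 0, 1)) (0, 0, 0, 1) = mul x (mul (0, 0, 0, 1) (0, 0, 0, 1)) :=
      (h ((0, 0, 0, 1) : ℤ × ℤ × ℤ × ℤ) ((0, 0, 0, 1) : ℤ × ℤ × ℤ × ℤ)).1
    simpa [mul] using h1
  · intro h (a : ℤ × ℤ × ℤ × ℤ) (b : ℤ × ℤ × ℤ × ℤ)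
    refine ⟨?_, ?_, ?_⟩
    · show mul (mul x a) b = mul x (mul a b)
      simp only [mul, h, Prod.mk.injEq]
      refine ⟨?_, ?_, ?_, ?_⟩ <;> ring
    · show mul (mul a x) b = mul a (mul x b)
      simp only [mul, h, Prod.mk.injEq]
      refine ⟨?_, ?_, ?_, ?_⟩ <;> ring
    · show mul (mul a b) x = mul a (mul b x)
      simp only [mul, h, Prod.mk.injEq]
      refine ⟨?_, ?_, ?_, ?_⟩ <;> ring

theorem result : ∃ (R : Type) (_ : NonAssocRing R),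
    (∀ r : R, r ≠ 0 → ∃ x ∈ Nuc R, x * r ∈ Nuc R ∧ x * r ≠ 0) ∧
    ¬ (∀ r : R, r ≠ 0 → ∃ x ∈ Nuc R, r * x ∈ Nuc R ∧ r * x ≠ 0) := by
  refine ⟨T, inferInstance, ?_, ?_⟩
  · intro (r : ℤ × ℤ × ℤ × ℤ) hr
    by_cases h : r.2.2.2 = 0
    · refine ⟨((1, 0, 0, 0) : ℤ × ℤ × ℤ × ℤ), (mem _).2 rfl, ?_, ?_⟩
      · exact (mem (mul (1, 0, 0, 0) r)).2 (by simp [mul, h])
      · show mul (1, 0, 0, 0) r ≠ 0
        have hr' : r ≠ (0 : ℤ × ℤ × ℤ × ℤ) := hr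
        simpa [mul] using hr'
    · refine ⟨((0, 1, 0, 0) : ℤ × ℤ × ℤ × ℤ), (mem _).2 rfl, ?_, ?_⟩
      · exact (mem (mul (0, 1, 0, 0) r)).2 (by simp [mul])
      · show mul (0, 1, 0, 0) r ≠ 0
        simp [mul, h]
  · intro H
    obtain ⟨x, hx, h1, h2⟩ := H ((0, 0, 0, 1) : ℤ × ℤ × ℤ × ℤ)
      (show ((0, 0, 0, 1) : ℤ × ℤ × ℤ × ℤ) ≠ 0 by simp)
    have hx' := (mem x).1 hx
    have h1' := (mem (mul (0, 0, 0, 1) x)).1 h1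
    apply h2
    show mul (0, 0, 0, 1) x = 0
    simp only [mul] at h1' ⊢
    simp at h1'
    simp [h1', hx']

end Pool.Agent.Results.MP_0af3ab_al.Ess
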